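import Mathlib
import Pool.Agent.Q321.KM.Count

/-!
# Domino tilings of an Aztec diamond with a knight's-move pair removed

`Pool.Agent.Q321.KM.knightRegion n` is the Aztec diamond of order `n` without the unit squares with
centres `(-1/2, -1/2)` and `(1/2, 3/2)` (unit squares are given by their lower left corners), and
`Pool.Agent.Helper848.numTilings R` is the number of domino tilings of the finite region `R`.
-/

set_option autoImplicit false

namespace Pool.Agent.Results.MP_b90a94_co.KnightMoveTilings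

open Pool.Agent.Helper848 Pool.Agent.Q321.KM

theorem cb_sq (k : ℕ) : cb k ^ 2 = (Nat.centralBinom k : ℚ) ^ 2 / 16 ^ k := by
  unfold cb
  rw [div_pow, ← pow_mul, mul_comm k 2, pow_mul]
  norm_num

theorem pow_two_mul_sixteen (a k : ℕ) : (2 : ℚ) ^ (a + 4 * k) = 2 ^ a * 16 ^ k := by
  rw [pow_add, pow_mul]; norm_num

theorem binom_le (k : ℕ) : Nat.centralBinom k ^ 2 ≤ 16 ^ k := by
  have h : Nat.centralBinom k ≤ 4 ^ k := by
    rw [Nat.centralBinom_eq_two_mul_choose]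
    refine (Nat.choose_le_two_pow _ _).trans ?_
    rw [pow_mul]; norm_num
  calc Nat.centralBinom k ^ 2 ≤ (4 ^ k) ^ 2 := Nat.pow_le_pow_left h 2
    _ = 16 ^ k := by rw [← pow_mul, mul_comm k 2, pow_mul]; norm_num

/-- **Domino tilings of `D_n`, for all `n ≥ 2`.** With `B k = binomial(2k, k)`, for every `k ≥ 0`:
* `T(4k+2) = 2^(8k²+6k+1) (2k+1) B(k)²`,
* `T(4k+3) = 2^(8k²+10k+1) (k+1) B(k+1)²`,
* `T(4k+4) = 2^(8k²+10k+1) (k+1) B(k+1)² (16^(k+1) + B(k+1)²)`,
* `T(4k+5) = 2^(8k²+14k+5) (2k+3) B(k+1)² (16^(k+1) - B(k+1)²)`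
(the difference in the last line is nonnegative). -/
theorem result (k : ℕ) :
    numTilings (knightRegion (4 * k + 2)) =
      2 ^ (8 * k ^ 2 + 6 * k + 1) * ((2 * k + 1) * Nat.centralBinom k ^ 2) ∧
    numTilings (knightRegion (4 * k + 3)) =
      2 ^ (8 * k ^ 2 + 10 * k + 1) * ((k + 1) * Nat.centralBinom (k + 1) ^ 2) ∧
    numTilings (knightRegion (4 * k + 4)) =
      2 ^ (8 * k ^ 2 + 10 * k + 1) * ((k + 1) * Nat.centralBinom (k + 1) ^ 2 *
        (16 ^ (k + 1) + Nat.centralBinom (k + 1) ^ 2)) ∧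
    numTilings (knightRegion (4 * k + 5)) =
      2 ^ (8 * k ^ 2 + 14 * k + 5) * ((2 * k + 3) * Nat.centralBinom (k + 1) ^ 2 *
        (16 ^ (k + 1) - Nat.centralBinom (k + 1) ^ 2)) := by
  refine ⟨?_, ?_, ?_, ?_⟩
  · obtain ⟨G1, G2, s1, s2, v⟩ := case2 k
    have h := count_even (2 * k + 1) (by omega) G1 G2 s1 s2
    rw [v, abs_of_nonneg (by positivity), cb_sq] at h
    have e1 : 2 * (2 * k + 1) = 4 * k + 2 := by ring
    have e2 : (4 * k + 2) * (4 * k + 2 + 1) / 2 = (8 * k ^ 2 + 6 * k + 1) + 2 + 4 * k := by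
      rw [show (4 * k + 2) * (4 * k + 2 + 1) = 2 * ((8 * k ^ 2 + 6 * k + 1) + 2 + 4 * k) from by ring]
      exact Nat.mul_div_cancel_left _ (by norm_num)
    rw [e1, e2, pow_two_mul_sixteen, pow_add] at h
    have h3 : (numTilings (knightRegion (4 * k + 2)) : ℚ) =
        ((2 ^ (8 * k ^ 2 + 6 * k + 1) * ((2 * k + 1) * Nat.centralBinom k ^ 2) : ℕ) : ℚ) := by
      rw [h]
      push_cast
      have : (16 : ℚ) ^ k ≠ 0 := by positivity
      field_simp
      ring
    exact_mod_cast h3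
  · obtain ⟨G1, G2, s1, s2, v⟩ := case3 k
    have h := count_odd (2 * k + 1) (by omega) G1 G2 s1 s2
    rw [v, abs_of_nonneg (by positivity), cb_sq] at h
    have e1 : 2 * (2 * k + 1) + 1 = 4 * k + 3 := by ring
    have e2 : (4 * k + 3) * (4 * k + 3 + 1) / 2 = (8 * k ^ 2 + 10 * k + 1) + 1 + 4 * (k + 1) := by
      rw [show (4 * k + 3) * (4 * k + 3 + 1) = 2 * ((8 * k ^ 2 + 10 * k + 1) + 1 + 4 * (k + 1)) from by ring]
      exact Nat.mul_div_cancel_left _ (by norm_num)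
    rw [e1, e2, pow_two_mul_sixteen, pow_add] at h
    have h3 : (numTilings (knightRegion (4 * k + 3)) : ℚ) =
        ((2 ^ (8 * k ^ 2 + 10 * k + 1) * ((k + 1) * Nat.centralBinom (k + 1) ^ 2) : ℕ) : ℚ) := by
      rw [h]
      push_cast
      have : (16 : ℚ) ^ (k + 1) ≠ 0 := by positivity
      field_simp
    exact_mod_cast h3
  · obtain ⟨G1, G2, s1, s2, v⟩ := case0 (k + 1) (by omega)
    have h := count_even (2 * (k + 1)) (by omega) G1 G2 s1 s2
    rw [v, abs_of_nonneg (by positivity), cb_sq] at h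
    have e1 : 2 * (2 * (k + 1)) = 4 * k + 4 := by ring
    have e2 : (4 * k + 4) * (4 * k + 4 + 1) / 2 =
        (8 * k ^ 2 + 10 * k + 1) + 1 + 4 * (k + 1) + 4 * (k + 1) := by
      rw [show (4 * k + 4) * (4 * k + 4 + 1) =
        2 * ((8 * k ^ 2 + 10 * k + 1) + 1 + 4 * (k + 1) + 4 * (k + 1)) from by ring]
      exact Nat.mul_div_cancel_left _ (by norm_num)
    rw [e1, e2, pow_two_mul_sixteen, pow_two_mul_sixteen, pow_add] at h
    have h3 : (numTilings (knightRegion (4 * k + 4)) : ℚ) =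
        ((2 ^ (8 * k ^ 2 + 10 * k + 1) * ((k + 1) * Nat.centralBinom (k + 1) ^ 2 *
        (16 ^ (k + 1) + Nat.centralBinom (k + 1) ^ 2)) : ℕ) : ℚ) := by
      rw [h]
      push_cast
      have : (16 : ℚ) ^ (k + 1) ≠ 0 := by positivity
      field_simp
    exact_mod_cast h3
  · obtain ⟨G1, G2, s1, s2, v⟩ := case1 (k + 1) (by omega)
    have h := count_odd (2 * (k + 1)) (by omega) G1 G2 s1 s2
    have hle := binom_le (k + 1)
    have hle' : ((Nat.centralBinom (k + 1) : ℚ)) ^ 2 ≤ 16 ^ (k + 1) := by exact_mod_cast hle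
    have hp : (0 : ℚ) < 16 ^ (k + 1) := by positivity
    rw [v, cb_sq, abs_of_nonneg (by
      have h0 : 0 ≤ 1 - (Nat.centralBinom (k + 1) : ℚ) ^ 2 / 16 ^ (k + 1) := by
        rw [sub_nonneg, div_le_one hp]; exact hle'
      positivity)] at h
    have e1 : 2 * (2 * (k + 1)) + 1 = 4 * k + 5 := by ring
    have e2 : (4 * k + 5) * (4 * k + 5 + 1) / 2 =
        (8 * k ^ 2 + 14 * k + 5) + 2 + 4 * (k + 1) + 4 * (k + 1) := by
      rw [show (4 * k + 5) * (4 * k + 5 + 1) =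
        2 * ((8 * k ^ 2 + 14 * k + 5) + 2 + 4 * (k + 1) + 4 * (k + 1)) from by ring]
      exact Nat.mul_div_cancel_left _ (by norm_num)
    rw [e1, e2, pow_two_mul_sixteen, pow_two_mul_sixteen, pow_add] at h
    have h3 : (numTilings (knightRegion (4 * k + 5)) : ℚ) =
        ((2 ^ (8 * k ^ 2 + 14 * k + 5) * ((2 * k + 3) * Nat.centralBinom (k + 1) ^ 2 *
        (16 ^ (k + 1) - Nat.centralBinom (k + 1) ^ 2)) : ℕ) : ℚ) := by
      rw [h]
      push_cast [Nat.cast_sub hle]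
      field_simp
      ring
    exact_mod_cast h3

end Pool.Agent.Results.MP_b90a94_co.KnightMoveTilings
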